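import Mathlib
import Pool.Agent.Q73.SO.FinS

/-!
# Schroedinger observability from every uniformly continuous relatively dense function (MP_0a8f24_an, Q1)

For every `d` (in particular for every `d ≥ 2`), every uniformly continuous, relatively dense
`a : ℝ^d → [0,1]` and every `T > 0` the Schroedinger equation `i u_t - Δu = 0` on `ℝ^d` is observable from
`a` in time `T`.

Proof. Phase space analysis with the Gaussian short time Fourier transform `V`. If the inequality fails there
are solutions `v_n` with `|V v_n| ≤ (1 + |z|/n)^m`, `|V v_n(0)| ≥ 1/2` whose observations (with the moving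
observation functions `a(y + p_n - 4πt q_n)`) tend to `0`. For a set of times of measure `≥ τ₀` the observation
function is large on a fixed small ball, so that `⟨U(t) v_n, θ⟩ → 0` in `L²` of these times, for `θ` supported in
the ball. These functions of `t` are boundary values of holomorphic functions with polynomial bounds in the half
plane; by the two constants theorem they tend to zero in the half plane, at `t = i/(4π)`: a convolution of
`v_n` with a Gaussian, which is real analytic in `y`. Hence `V v_n(0) → 0`.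
-/

set_option autoImplicit false
open MeasureTheory Filter Topology Complex
open scoped FourierTransform

namespace Pool.Agent.Results.MP_0a8f24_an.EveryRelativelyDense

noncomputable section

section

variable {V : Type} [NormedAddCommGroup V] [InnerProductSpace ℝ V] [FiniteDimensional ℝ V]
  [MeasurableSpace V] [BorelSpace V]

variable (V) in
/-- the space `L²(V)` of complex valued functions, Lebesgue measure -/
abbrev L2 : Type := Lp ℂ 2 (volume : Measure V)

/-- the Fourier transform on `L²(V)`, with the kernel `e^{-2πi x·ξ}` -/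
def fourier (f : L2 V) : L2 V := 𝓕 f

/-- `u : ℝ → L²(V)` is the solution `u(t) = e^{-itΔ} u(0)` of `i u_t - Δu = 0` on the Euclidean space `V`:
the Fourier transform of `u t` is `e^{4π² i t |ξ|²}` times the Fourier transform of `u 0`, for all `t`. -/
def IsSolution (u : ℝ → L2 V) : Prop :=
  ∀ t : ℝ, (fourier (u t) : V → ℂ) =ᵐ[volume]
    fun ξ => cexp (((4 * Real.pi ^ 2 * t * ‖ξ‖ ^ 2 : ℝ) : ℂ) * I) * fourier (u 0) ξ

/-- the Schroedinger equation on `V` is observable from `a` in time `T` -/
def ObservableIn (a : V → ℝ) (T : ℝ) : Prop :=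
  ∃ C : ℝ, 0 < C ∧ ∀ u : ℝ → L2 V, IsSolution u →
    ‖u 0‖ ^ 2 ≤ C * ∫ t in (0 : ℝ)..T, ∫ x, (a x) ^ 2 * ‖u t x‖ ^ 2

end

/-- `a` is relatively dense: for some `L, η > 0` the mean of `a` over each (closed, axis parallel) cube of
side `L` is at least `η` -/
def RelativelyDense {d : ℕ} (a : EuclideanSpace ℝ (Fin d) → ℝ) : Prop :=
  ∃ L η : ℝ, 0 < L ∧ 0 < η ∧ ∀ c : EuclideanSpace ℝ (Fin d),
    η ≤ (L ^ d)⁻¹ * ∫ z in {z : EuclideanSpace ℝ (Fin d) | ∀ i, c i ≤ z i ∧ z i ≤ c i + L}, a z

/-- **Observability from every uniformly continuous relatively dense function, in every time `T > 0`.** -/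
theorem result (d : ℕ) (a : EuclideanSpace ℝ (Fin d) → ℝ) (ha : ∀ x, 0 ≤ a x ∧ a x ≤ 1)
    (hu : UniformContinuous a) (hd : RelativelyDense a) (T : ℝ) (hT : 0 < T) :
    ObservableIn a T := by
  obtain ⟨L, η, hL, hη, hRD⟩ := hd
  obtain ⟨a', hB, hle, hRD'⟩ := Pool.Agent.Q73.SO.t_SM d a L η hL hη hu ha hRD
  have hCL : Pool.Agent.Q73.SO.CL := Pool.Agent.Q73.SO.t_CLAIM Pool.Agent.Q73.SO.t_U
    Pool.Agent.Q73.SO.t_COV Pool.Agent.Q73.SO.t_REN Pool.Agent.Q73.SO.t_MOY Pool.Agent.Q73.SO.t_DEC
    Pool.Agent.Q73.SO.t_GRO Pool.Agent.Q73.SO.t_HN Pool.Agent.Q73.SO.t_TWO Pool.Agent.Q73.SO.t_CORE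
    Pool.Agent.Q73.SO.t_PIG Pool.Agent.Q73.SO.t_BARG
  obtain ⟨C, hC, hin⟩ := Pool.Agent.Q73.SO.t_FIN Pool.Agent.Q73.SO.t_U Pool.Agent.Q73.SO.t_COV
    Pool.Agent.Q73.SO.t_MOY Pool.Agent.Q73.SO.t_DEC Pool.Agent.Q73.SO.t_REP hCL d T L (η / 2) a' hT hL
    (by positivity) hB hRD'
  exact ⟨C, hC, fun u hsol => Pool.Agent.Q73.SO.t_DENS Pool.Agent.Q73.SO.t_U d T C a a' hT hC hB
    hu.continuous ha hle hin u hsol⟩

end

end Pool.Agent.Results.MP_0a8f24_an.EveryRelativelyDense
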